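import Pool.Agent.X54.LC.Main

/-!
# Locating chromatic numbers of `K_m □ C_n` and `K_m □ P_n`

`chiL G` is the locating chromatic number of `G` (`Pool.Agent.X54.LC.chiL`).  For all
`m, n ≥ 16` the numbers `chiL (K_m □ C_n)` and `chiL (K_m □ P_n)` agree; both are
`m + 1` if `n ≤ m + 1` and `m + 2` otherwise.
-/

set_option autoImplicit false

namespace Pool.Agent.Results.MP_6ba634_co.CycleVersusPath

open SimpleGraph Pool.Agent.X54.LC

theorem result :
    (∃ N : ℕ, ∀ m n : ℕ, N ≤ m → N ≤ n →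
      chiL ((⊤ : SimpleGraph (Fin m)) □ cycleGraph n) =
        chiL ((⊤ : SimpleGraph (Fin m)) □ pathGraph n)) ∧
    ∀ m n : ℕ, 16 ≤ m → 16 ≤ n →
      chiL ((⊤ : SimpleGraph (Fin m)) □ cycleGraph n) = (if n ≤ m + 1 then m + 1 else m + 2) ∧
      chiL ((⊤ : SimpleGraph (Fin m)) □ pathGraph n) = (if n ≤ m + 1 then m + 1 else m + 2) := by
  have h : ∀ m n : ℕ, 16 ≤ m → 16 ≤ n →
      chiL ((⊤ : SimpleGraph (Fin m)) □ cycleGraph n) = (if n ≤ m + 1 then m + 1 else m + 2) ∧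
      chiL ((⊤ : SimpleGraph (Fin m)) □ pathGraph n) = (if n ≤ m + 1 then m + 1 else m + 2) :=
    fun m n hm hn => main hm hn
  exact ⟨⟨16, fun m n hm hn => (h m n hm hn).1.trans (h m n hm hn).2.symm⟩, h⟩

end Pool.Agent.Results.MP_6ba634_co.CycleVersusPath
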